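import Pool.Agent.helper37.P2.SpecD

set_option autoImplicit false

open scoped ContDiff Topology
open MeasureTheory Filter Set Metric MvPolynomial Pool.Agent.helper37.QA

namespace Pool.Agent.P2

theorem PR2_anti {d : ℕ} {f : Endo 2 d} {Us : ℕ → Set (PP 2)} {K : Set (PP 2)} (h : Core f Us K) (J : ℕ) : Us J ⊆ Us 0 := by
  induction J with
  | zero => exact subset_rfl
  | succ J ih => exact (subset_closure.trans (h.anti J)).trans ih

theorem PR2_dsc {U V : Set (PP 2)} (h : U ⊆ V) {Z : ℂ → E3} (hZ : Dsc U Z) : Dsc V Z := by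
  refine ⟨hZ.1, fun z hz => ?_⟩
  obtain ⟨h0, h1⟩ := hZ.2 z hz
  exact ⟨h0, h h1⟩

theorem PR2_sum {α : Type*} {n : ℕ} (S : Finset (Fin n)) (A : Fin n → α) (F : α → ℝ) :
    ∑ a : Fin S.card, F (A (S.equivFin.symm a)) = ∑ a ∈ S, F (A a) := by
  rw [← Finset.sum_coe_sort S (fun a => F (A a))]
  exact Fintype.sum_equiv S.equivFin.symm _ _ (fun _ => rfl)

theorem PR2_J (C ε : ℝ) (hε : 0 < ε) : ∃ J0 : ℕ, ∀ J : ℕ, J0 ≤ J → C * (J : ℝ) ^ (-(1 / 2) : ℝ) ≤ ε / 2 := by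
  have h1 : Tendsto (fun x : ℝ => x ^ (-(1 / 2) : ℝ)) atTop (𝓝 0) := tendsto_rpow_neg_atTop (by norm_num)
  have h2 : Tendsto (fun J : ℕ => C * (J : ℝ) ^ (-(1 / 2) : ℝ)) atTop (𝓝 (C * 0)) :=
    (h1.comp tendsto_natCast_atTop_atTop).const_mul C
  rw [mul_zero] at h2
  have h3 := h2.eventually (Iio_mem_nhds (show (0 : ℝ) < ε / 2 by positivity))
  obtain ⟨J0, hJ0⟩ := eventually_atTop.1 h3
  exact ⟨J0, fun J hJ => le_of_lt (hJ0 J hJ)⟩

open Classical in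
theorem PR2 (_hNNG : NNG_stmt) (hFAM : FAM_stmt) (hBK2 : BK2_stmt) : PR2_stmt := by
  intro d f Us K hd hC Λ1 Kb κ L N Z hΛ hKb hκ hκ' hN ε ε2 hε hε2
  obtain ⟨C1, hC1, hF⟩ := hFAM d f (Us 0) hd hC.good κ Kb hκ hκ' hKb
  obtain ⟨C, hC0, hB⟩ := hBK2 d f (Us 0) hd hC.good κ Kb C1 hκ hκ' hKb hC1
  obtain ⟨m0, s0, hs0, hvb⟩ := hN.vb (ε * ε2 / (2 * C)) (by positivity)
  refine ⟨max m0 1, s0, hs0, fun s m hs hss hm => ?_⟩
  obtain ⟨J2, hJ2⟩ := hvb s m hs hss (le_trans (le_max_left _ _) hm)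
  obtain ⟨J0, hJ0⟩ := PR2_J C ε hε
  refine ⟨max J2 (max J0 1), fun J hJ ι c hc => ?_⟩
  have hJa : J2 ≤ J := le_trans (le_max_left _ _) hJ
  have hJb : J0 ≤ J := le_trans (le_trans (le_max_left _ _) (le_max_right _ _)) hJ
  have hJc : 1 ≤ J := le_trans (le_trans (le_max_right _ _) (le_max_right _ _)) hJ
  have hm1 : 1 ≤ m := le_trans (le_max_right _ _) hm
  have hmR : (1 : ℝ) ≤ (m : ℝ) := by exact_mod_cast hm1
  have hJR : (1 : ℝ) ≤ (J : ℝ) := by exact_mod_cast hJc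
  obtain ⟨hz1, hz2, hz3, hz4, hz5⟩ := hN.size J
  have hSD : ∀ k, k < L J → SD f (Us 0) (N J) k (Z J) Kb c := fun k hk =>
    ⟨by omega, PR2_dsc (PR2_anti hC J) hz3, hJR.trans hz4, hz5, hc⟩
  have hex : ∀ k, ∃ (n : ℕ) (A : Fin n → ID), k < L J → Fam f (N J) (Z J) k ι c κ C1 n A := by
    intro k
    by_cases hk : k < L J
    · obtain ⟨n, A, h⟩ := hF (N J) k (Z J) ι c (hSD k hk)
      exact ⟨n, A, fun _ => h⟩
    · exact ⟨0, Fin.elim0, fun h => absurd h hk⟩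
  choose n A hFam using hex
  set S : (k : ℕ) → Finset (Fin (n k)) := fun k =>
    if k < L J then Finset.univ.filter (fun a => ε2 * m < QR f m (Λ1 * m) s (N J - k) ι c κ (A k a).γ) else ∅ with hS
  have hSk : ∀ k, k < L J → S k = Finset.univ.filter (fun a => ε2 * m < QR f m (Λ1 * m) s (N J - k) ι c κ (A k a).γ) := by
    intro k hk
    simp only [hS, if_pos hk]
  have hSlt : ∀ k, ∀ a : Fin (n k), a ∈ S k → k < L J := by
    intro k a ha
    by_contra hk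
    simp only [hS, if_neg hk] at ha
    exact absurd ha (Finset.notMem_empty a)
  have hvb1 := hJ2 J hJa (fun k => (S k).card) (fun k a => A k ((S k).equivFin.symm a)) (by
      intro k a
      have hk := hSlt k _ ((S k).equivFin.symm a).2
      obtain ⟨h1, h2, h3⟩ := (hFam k hk).isl ((S k).equivFin.symm a)
      refine ⟨by rw [h2]; exact hc, ?_⟩
      rw [h1, h2]
      exact h3.1) (by
      intro k a b hab
      have hk := hSlt k _ ((S k).equivFin.symm a).2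
      exact (hFam k hk).dis _ _ (fun h => hab ((S k).equivFin.symm.injective (Subtype.ext h))))
  have hmz : 0 < mass f (N J) (Z J) := lt_of_lt_of_le (by linarith) hz4
  have hd0 : (0 : ℝ) < d := by
    have : 0 < d := by omega
    exact_mod_cast this
  have hw : ∀ k : ℕ, 0 < (d : ℝ) ^ k * mass f (N J) (Z J) := fun k => mul_pos (pow_pos hd0 k) hmz
  -- Markov
  have hmar : ∑ k ∈ Finset.Ico 1 (L J), (((d : ℝ) ^ k * mass f (N J) (Z J))⁻¹ * ∑ a ∈ S k, eta ((A k a).g 0) ^ 2) ≤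
      ε / (2 * C) * L J := by
    have h1 : ∑ k ∈ Finset.Ico 1 (L J), (ε2 * m) * (((d : ℝ) ^ k * mass f (N J) (Z J))⁻¹ * ∑ a ∈ S k, eta ((A k a).g 0) ^ 2) ≤
        ε * ε2 / (2 * C) * m * L J := by
      refine le_trans (Finset.sum_le_sum ?_) hvb1
      intro k hk
      have hkL : k < L J := (Finset.mem_Ico.1 hk).2
      rw [mul_left_comm]
      refine mul_le_mul_of_nonneg_left ?_ (inv_nonneg.2 (hw k).le)
      rw [PR2_sum (S k) (A k) (fun i => eta (i.g 0) ^ 2 * QR f m (Λ1 * m) s (N J - k) i.ι i.c κ i.γ), Finset.mul_sum]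
      refine Finset.sum_le_sum ?_
      intro a ha
      obtain ⟨h1, h2, h3⟩ := (hFam k hkL).isl a
      rw [hSk k hkL] at ha
      have h4 := (Finset.mem_filter.1 ha).2
      rw [h1, h2, mul_comm]
      exact mul_le_mul_of_nonneg_left h4.le (sq_nonneg _)
    rw [← Finset.mul_sum] at h1
    have h2 : 0 < ε2 * m := by positivity
    have h3 : ε * ε2 / (2 * C) * m * L J = (ε2 * m) * (ε / (2 * C) * L J) := by ring
    rw [h3] at h1
    exact le_of_mul_le_mul_left h1 h2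
  have hstep : ∀ k ∈ Finset.Ico 1 (L J), mz f (N J) (Z J) (Pt f (Z J) k ι c κ
      (fun γ _ => ε2 * m < QR f m (Λ1 * m) s (N J - k) ι c κ γ)) ≤
      ENNReal.ofReal (C * ((((d : ℝ) ^ k * mass f (N J) (Z J))⁻¹ * ∑ a ∈ S k, eta ((A k a).g 0) ^ 2) + (J : ℝ) ^ (-(1 / 2) : ℝ))) := by
    intro k hk
    have hkL : k < L J := (Finset.mem_Ico.1 hk).2
    refine le_trans (hB (N J) k (Z J) ι c (hSD k hkL) (n k) (A k) (hFam k hkL)
      (fun γ => ε2 * m < QR f m (Λ1 * m) s (N J - k) ι c κ γ)) ?_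
    refine ENNReal.ofReal_le_ofReal (mul_le_mul_of_nonneg_left ?_ hC0.le)
    refine add_le_add ?_ ?_
    · rw [hSk k hkL, Finset.sum_filter]
    · refine Real.rpow_le_rpow_of_nonpos (by linarith) ?_ (by norm_num)
      refine hz4.trans ?_
      have : (1 : ℝ) ≤ (d : ℝ) ^ k := one_le_pow₀ (by exact_mod_cast (by omega : 1 ≤ d))
      nlinarith
  refine le_trans (Finset.sum_le_sum hstep) ?_
  rw [← ENNReal.ofReal_sum_of_nonneg]
  · refine ENNReal.ofReal_le_ofReal ?_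
    rw [← Finset.mul_sum, Finset.sum_add_distrib, Finset.sum_const, Nat.card_Ico, nsmul_eq_mul]
    have h1 := hJ0 J hJb
    have h2 : ((L J - 1 : ℕ) : ℝ) ≤ (L J : ℝ) := by exact_mod_cast Nat.sub_le _ _
    have h3 : (0 : ℝ) ≤ (J : ℝ) ^ (-(1 / 2) : ℝ) := Real.rpow_nonneg (by linarith) _
    have h4 : (0 : ℝ) ≤ (L J : ℝ) := Nat.cast_nonneg _
    calc C * (∑ k ∈ Finset.Ico 1 (L J), (((d : ℝ) ^ k * mass f (N J) (Z J))⁻¹ * ∑ a ∈ S k, eta ((A k a).g 0) ^ 2) +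
          ((L J - 1 : ℕ) : ℝ) * (J : ℝ) ^ (-(1 / 2) : ℝ))
        ≤ C * (ε / (2 * C) * L J + (L J : ℝ) * (J : ℝ) ^ (-(1 / 2) : ℝ)) := by
          refine mul_le_mul_of_nonneg_left (add_le_add hmar (mul_le_mul_of_nonneg_right h2 h3)) hC0.le
      _ = ε / 2 * L J + (C * (J : ℝ) ^ (-(1 / 2) : ℝ)) * L J := by
          field_simp
      _ ≤ ε / 2 * L J + ε / 2 * L J := by
          refine add_le_add le_rfl (mul_le_mul_of_nonneg_right h1 h4)
      _ = ε * L J := by ring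
  · intro k _
    refine mul_nonneg hC0.le (add_nonneg (mul_nonneg (inv_nonneg.2 (hw k).le) (Finset.sum_nonneg fun _ _ => sq_nonneg _))
      (Real.rpow_nonneg (by linarith) _))

end Pool.Agent.P2
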